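import Pool.Agent.Y882.KW.Core3
import Pool.Agent.Y882.PX.MainX

/-! The weighted sieve for a finite sequence with small total error. -/

set_option autoImplicit false

open Finset Filter

namespace Pool.Agent.Y882.KW

open Pool.Agent.W23.DC
open Pool.Agent.Y882.PX

theorem WW_le_one (Y : ℕ) (ζ υ a b : ℝ) (hb : 0 ≤ b) (hab : b * υ ≤ a) (N : ℕ) :
    WW Y ζ υ a b N ≤ 1 := by
  have hS0 : 0 ≤ ∑ q ∈ pr Y ζ υ, (a - b * tt Y q) * (if q ∣ N then (1 : ℝ) else 0) := by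
    apply sum_nonneg
    intro q hq
    unfold pr at hq
    rw [mem_filter] at hq
    have h6 : b * tt Y q ≤ b * υ := mul_le_mul_of_nonneg_left hq.2.2.2.le hb
    apply mul_nonneg (by linarith)
    split_ifs <;> norm_num
  unfold WW
  split_ifs
  · linarith
  · simp

open Classical in
/-- **The weighted sieve.** -/
theorem core4 (K : ℕ) (τ ζ υ aw bw τ' β ε : ℝ) (hζ : 0 < ζ) (h2 : 2 * ζ < τ) (h4 : τ ≤ 4 * ζ)
    (hτ : τ ≤ 1) (hζυ : ζ ≤ υ) (hυτ : υ < τ) (ha : 0 ≤ aw) (hb : 0 ≤ bw) (hab : bw * υ ≤ aw)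
    (hJ0 : ∫ x in ζ..υ, (aw - bw * x) / (τ - x) / x < Real.log (τ / ζ - 1) / τ)
    (h5 : τ < τ') (hβ : 0 < β) (hε : 0 < ε) :
    ∃ δ ε₁ η : ℝ, 0 < δ ∧ 0 < ε₁ ∧ ε₁ ≤ ζ ∧ ε₁ ≤ β ∧ 0 < η ∧ ∃ Y0 : ℕ, ∀ Y : ℕ, Y0 ≤ Y →
      ∃ c : Finset ℕ → ℝ, (∀ T, |c T| ≤ 5 * Real.log Y) ∧
      (∀ T ⊆ PZ Y υ, c T ≠ 0 → ((∏ p ∈ T, p : ℕ) : ℝ) ≤ (Y : ℝ) ^ τ') ∧
      ∀ (J : Finset ℕ) (a : ℕ → ℕ) (r : ℕ → ℕ) (Z : ℕ), (Y : ℝ) ^ β ≤ Z →
        (∀ p : ℕ, p.Prime → r p ≤ K) → (∀ p : ℕ, p.Prime → r p ≤ p) →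
        Mer (pr Y ε₁ υ) (tt Y) (fun p => (r p : ℝ) / p) ε₁ υ η →
        |∑ T ∈ (PZ Y υ).powerset, c T * (((J.filter (fun j => ∏ p ∈ T, p ∣ a j)).card : ℝ) -
          J.card * ∏ p ∈ T, ((r p : ℝ) / p))| ≤ J.card * (Y : ℝ) ^ (-ε) →
        δ * J.card * ∏ p ∈ (Icc 1 Z).filter Nat.Prime, (1 - (r p : ℝ) / p) ≤
          ((J.filter (fun j => 0 < WW Y ζ υ aw bw (a j))).card : ℝ) := by
  obtain ⟨ε₁, η, f, hε₁, hε₁ζ, hε₁β, hη, hf, Y1, HC⟩ :=
    core3 K τ ζ υ aw bw τ' β hζ h2 h4 hτ hζυ hυτ ha hb hab hJ0 h5 hβ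
  obtain ⟨c0, hc0, HV⟩ := V_low K
  obtain ⟨Y4, HJ⟩ := exJ ε₁ hε₁
  have ev1 : ∀ᶠ Y : ℕ in atTop, (3 * Real.log Y) ^ (2 * K) ≤ (Y : ℝ) ^ (ε / 4) := by
    have h1 : Tendsto (fun x : ℝ => Real.log x ^ ((2 * K : ℕ) : ℝ) / x ^ (ε / 4)) atTop (nhds 0) := by
      have := isLittleO_log_rpow_rpow_atTop (((2 * K : ℕ) : ℝ)) (show 0 < ε / 4 by linarith)
      exact this.tendsto_div_nhds_zero
    have h2 := h1.eventually_le_const (show (0 : ℝ) < 1 / (3 ^ (2 * K)) by positivity)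
    have h3 := tendsto_natCast_atTop_atTop.eventually (h2.and (eventually_gt_atTop (0 : ℝ)))
    filter_upwards [h3] with X hX
    obtain ⟨h4, h5⟩ := hX
    have h6 : (0 : ℝ) < (X : ℝ) ^ (ε / 4) := by positivity
    rw [div_le_div_iff₀ h6 (by positivity), one_mul, Real.rpow_natCast] at h4
    rw [mul_pow]
    linarith
  have ev2 : ∀ᶠ Y : ℕ in atTop, 2 / (f * c0) ≤ (Y : ℝ) ^ (ε / 4) :=
    tendsto_natCast_atTop_atTop.eventually
      ((tendsto_rpow_atTop (by linarith)).eventually_ge_atTop _)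
  obtain ⟨Y5, hY5⟩ := eventually_atTop.1 (ev1.and (ev2.and (eventually_ge_atTop 3)))
  refine ⟨f / 2, ε₁, η, by positivity, hε₁, hε₁ζ, hε₁β, hη, max Y1 (max Y4 Y5), ?_⟩
  intro Y hY
  obtain ⟨e1, e2, e5⟩ := hY5 Y (((le_max_right _ _).trans (le_max_right _ _)).trans hY)
  have hY1 : Y1 ≤ Y := (le_max_left _ _).trans hY
  have hY4 : Y4 ≤ Y := ((le_max_left _ _).trans (le_max_right _ _)).trans hY
  have hYr : (3 : ℝ) ≤ Y := by exact_mod_cast e5
  have hY0 : (0 : ℝ) < Y := by linarith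
  have hY1r : (1 : ℝ) ≤ Y := by linarith
  obtain ⟨c, hcL, hcD, hcN, hcV⟩ := HC Y hY1
  obtain ⟨J0, hJ1, hJ2⟩ := HJ Y hY4
  refine ⟨c, hcL, hcD, ?_⟩
  intro J a r Z hZ hK hrp hmer herr
  have hPZ : ∀ w : ℝ, ∀ p ∈ PZ Y w, p.Prime ∧ p ≤ Y ∧ (p : ℝ) < (Y : ℝ) ^ w := by
    intro w p hp
    unfold PZ at hp
    rw [mem_filter, mem_Icc] at hp
    exact ⟨hp.2.1, hp.1.2, (tt_lt Y p w (by omega) hp.2.1.pos).1 hp.2.2⟩
  have hJr : (0 : ℝ) ≤ J.card := Nat.cast_nonneg _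
  -- size of J
  have hJlog : (2 : ℝ) ^ J0 ≤ 3 * Real.log Y := by
    have h6 := Real.log_le_log (by positivity) hJ2
    rw [Real.log_rpow (by linarith), Real.log_pow] at h6
    push_cast at h6
    have h7 : 0.69 < Real.log 2 := by linarith [Real.log_two_gt_d9]
    have h8 : (2 : ℝ) ^ J0 * 0.69 ≤ (2 : ℝ) ^ J0 * Real.log 2 :=
      mul_le_mul_of_nonneg_left h7.le (by positivity)
    have hlY : 0 ≤ Real.log Y := Real.log_nonneg hY1r
    have h9 : 2 * ε₁ * Real.log Y ≤ 1 * Real.log Y :=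
      mul_le_mul_of_nonneg_right (by linarith) hlY
    linarith
  -- trivial case
  by_cases hfull : ∃ p ∈ (Icc 1 Z).filter Nat.Prime, r p = p
  · obtain ⟨p, hp, hpr⟩ := hfull
    have h1 : ∏ p ∈ (Icc 1 Z).filter Nat.Prime, (1 - (r p : ℝ) / p) = 0 := by
      apply prod_eq_zero hp
      rw [hpr]
      have : (p : ℝ) ≠ 0 := by exact_mod_cast (mem_filter.1 hp).2.ne_zero
      rw [div_self this, sub_self]
    rw [h1, mul_zero]
    positivity
  push Not at hfull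
  have hlt : ∀ p : ℕ, p.Prime → p ≤ Z → (r p : ℝ) ≤ p - 1 := by
    intro p hp hpX
    have h1 := hrp p hp
    have h2 := hfull p (by rw [mem_filter, mem_Icc]; exact ⟨⟨hp.one_le, hpX⟩, hp⟩)
    have h3 : r p + 1 ≤ p := by omega
    have h4 : (r p : ℝ) + 1 ≤ p := by exact_mod_cast h3
    linarith
  have hsubX : PZ Y ε₁ ⊆ (Icc 1 Z).filter Nat.Prime := by
    intro p hp
    obtain ⟨h1, h2, h3⟩ := hPZ ε₁ p hp
    rw [mem_filter, mem_Icc]
    refine ⟨⟨h1.one_le, ?_⟩, h1⟩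
    have h4 : (Y : ℝ) ^ ε₁ ≤ Z :=
      (Real.rpow_le_rpow_of_exponent_le hY1r hε₁β).trans hZ
    exact_mod_cast (h3.trans_le h4).le
  have hr01 : ∀ p ∈ (Icc 1 Z).filter Nat.Prime,
      0 ≤ 1 - (r p : ℝ) / p ∧ 1 - (r p : ℝ) / p ≤ 1 := by
    intro p hp
    have hpp := (mem_filter.1 hp).2
    have hp0 : (0 : ℝ) < p := by exact_mod_cast hpp.pos
    have h1 : (r p : ℝ) ≤ p := by exact_mod_cast hrp p hpp
    constructor
    · rw [sub_nonneg, div_le_one hp0]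
      exact h1
    · have : 0 ≤ (r p : ℝ) / p := by positivity
      linarith
  set V1 : ℝ := ∏ p ∈ PZ Y ε₁, (1 - (r p : ℝ) / p) with hV1
  have hlocV : ∏ p ∈ (Icc 1 Z).filter Nat.Prime, (1 - (r p : ℝ) / p) ≤ V1 := by
    rw [hV1, ← prod_sdiff hsubX]
    calc (∏ p ∈ (Icc 1 Z).filter Nat.Prime \ PZ Y ε₁, (1 - (r p : ℝ) / p)) *
        ∏ p ∈ PZ Y ε₁, (1 - (r p : ℝ) / p) ≤
        1 * ∏ p ∈ PZ Y ε₁, (1 - (r p : ℝ) / p) := by
          apply mul_le_mul_of_nonneg_right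
          · apply prod_le_one
            · intro p hp
              exact (hr01 p (mem_sdiff.1 hp).1).1
            · intro p hp
              exact (hr01 p (mem_sdiff.1 hp).1).2
          · exact prod_nonneg fun p hp => (hr01 p (hsubX hp)).1
      _ = _ := one_mul _
  have hVlow : c0 * (1 / 2 ^ J0) ^ (2 * K) ≤ V1 := by
    apply HV J0 (PZ Y ε₁) (fun p => (r p : ℝ))
    · intro p hp
      obtain ⟨h1, h2, h3⟩ := hPZ ε₁ p hp
      refine ⟨h1, ?_⟩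
      have := h3.trans_le hJ1
      exact_mod_cast this
    · intro p hp
      exact_mod_cast hK p (hPZ ε₁ p hp).1
    · intro p hp
      have := hsubX hp
      rw [mem_filter, mem_Icc] at this
      exact hlt p this.2 this.1.2
  have hVlow2 : c0 / (Y : ℝ) ^ (ε / 4) ≤ V1 := by
    refine le_trans ?_ hVlow
    rw [div_eq_mul_one_div]
    apply mul_le_mul_of_nonneg_left _ hc0.le
    rw [one_div_pow]
    apply one_div_le_one_div_of_le (by positivity)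
    exact (pow_le_pow_left₀ (by positivity) hJlog _).trans e1
  -- main inequality
  have hmain := hcV (fun p => (r p : ℝ) / p) (fun p _ => by positivity) (by
    intro p hp
    have hpp := (hPZ ε₁ p hp).1
    have hp0 : (0 : ℝ) < p := by exact_mod_cast hpp.pos
    have h1 : (r p : ℝ) ≤ p := by exact_mod_cast hrp p hpp
    show (r p : ℝ) / p ≤ 1
    rw [div_le_one hp0]
    exact h1) (by
    intro p hp _
    have hp0 : (2 : ℝ) ≤ p := by exact_mod_cast (hPZ ε₁ p hp).1.two_le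
    have h1 : (r p : ℝ) ≤ K := by exact_mod_cast hK p (hPZ ε₁ p hp).1
    show (r p : ℝ) / p ≤ K / ((p : ℝ) - 1)
    apply div_le_div₀ (Nat.cast_nonneg _) h1 (by linarith) (by linarith)) hmer
  have hmain' : f * V1 ≤ VV (PZ Y υ) c (fun p => (r p : ℝ) / p) := hmain
  -- the sieve inequality
  have hs : (J.card : ℝ) * VV (PZ Y υ) c (fun p => (r p : ℝ) / p) +
      ∑ T ∈ (PZ Y υ).powerset, c T * (((J.filter (fun j => ∏ p ∈ T, p ∣ a j)).card : ℝ) -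
          J.card * ∏ p ∈ T, ((r p : ℝ) / p)) ≤
      ((J.filter (fun j => 0 < WW Y ζ υ aw bw (a j))).card : ℝ) := by
    have h6 : (J.card : ℝ) * VV (PZ Y υ) c (fun p => (r p : ℝ) / p) +
      ∑ T ∈ (PZ Y υ).powerset, c T * (((J.filter (fun j => ∏ p ∈ T, p ∣ a j)).card : ℝ) -
          J.card * ∏ p ∈ T, ((r p : ℝ) / p)) =
      ∑ T ∈ (PZ Y υ).powerset, c T * ((J.filter (fun j => ∏ p ∈ T, p ∣ a j)).card : ℝ) := by
      unfold VV
      rw [mul_sum, ← sum_add_distrib]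
      apply sum_congr rfl
      intro T _
      ring
    have h7 : ∑ T ∈ (PZ Y υ).powerset, c T * ((J.filter (fun j => ∏ p ∈ T, p ∣ a j)).card : ℝ) =
        ∑ j ∈ J, VV (PZ Y υ) c (fun p => if p ∣ a j then 1 else 0) := by
      unfold VV
      rw [sum_comm]
      apply sum_congr rfl
      intro T hT
      rw [mem_powerset] at hT
      rw [card_filter]
      push_cast
      rw [mul_sum]
      apply sum_congr rfl
      intro j _
      rw [Pool.Agent.Y882.PX.prod_ind T (fun p hp => (hPZ υ p (hT hp)).1)]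
    rw [h6, h7, card_filter]
    push_cast
    apply sum_le_sum
    intro j _
    refine (hcN (a j)).trans ?_
    split_ifs with h
    · exact WW_le_one Y ζ υ aw bw hb hab (a j)
    · exact not_lt.1 h
  have hm1 : (J.card : ℝ) * (f * V1) ≤
      (J.card : ℝ) * VV (PZ Y υ) c (fun p => (r p : ℝ) / p) :=
    mul_le_mul_of_nonneg_left hmain' hJr
  have hm2 := neg_le_of_abs_le herr
  -- the error terms
  have hε4 : (0 : ℝ) < (Y : ℝ) ^ (ε / 4) := by positivity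
  have hfV : f * (c0 / (Y : ℝ) ^ (ε / 4)) ≤ f * V1 := mul_le_mul_of_nonneg_left hVlow2 hf.le
  have hbase : 2 * (Y : ℝ) ^ (-ε) ≤ f * V1 := by
    refine le_trans ?_ hfV
    rw [mul_div_assoc', le_div_iff₀ hε4]
    rw [div_le_iff₀ (by positivity)] at e2
    calc 2 * (Y : ℝ) ^ (-ε) * (Y : ℝ) ^ (ε / 4) ≤
        ((Y : ℝ) ^ (ε / 4) * (f * c0)) * (Y : ℝ) ^ (-ε) * (Y : ℝ) ^ (ε / 4) := by
          apply mul_le_mul_of_nonneg_right _ hε4.le
          exact mul_le_mul_of_nonneg_right e2 (by positivity)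
      _ = (f * c0) * ((Y : ℝ) ^ (ε / 4) * (Y : ℝ) ^ (-ε) * (Y : ℝ) ^ (ε / 4)) := by ring
      _ ≤ (f * c0) * 1 := by
          apply mul_le_mul_of_nonneg_left _ (by positivity)
          rw [← Real.rpow_add hY0, ← Real.rpow_add hY0]
          apply Real.rpow_le_one_of_one_le_of_nonpos hY1r
          linarith
      _ = f * c0 := mul_one _
  have he1 : (J.card : ℝ) * (Y : ℝ) ^ (-ε) ≤ J.card * (f * V1) / 2 := by
    have h3 := mul_le_mul_of_nonneg_left hbase hJr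
    linarith
  have hfin : f / 2 * J.card * ∏ p ∈ (Icc 1 Z).filter Nat.Prime, (1 - (r p : ℝ) / p) ≤
      J.card * (f * V1) / 2 := by
    calc f / 2 * J.card * ∏ p ∈ (Icc 1 Z).filter Nat.Prime, (1 - (r p : ℝ) / p) ≤
        f / 2 * J.card * V1 := mul_le_mul_of_nonneg_left hlocV (by positivity)
      _ = _ := by ring
  linarith

end Pool.Agent.Y882.KW
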