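import Pool.Agent.Y882.KW.Core4

/-! A positive weight gives an almost prime. -/

set_option autoImplicit false

open Finset Filter

namespace Pool.Agent.Y882.KW

open Pool.Agent.W23.DC
open Pool.Agent.Y882.PX

open Classical in
/-- a number with a positive weight and without the squares of the medium primes is an almost prime -/
theorem almost (Y : ℕ) (hY : 2 ≤ Y) (ζ υ lam S : ℝ) (r : ℕ) (hζυ : ζ ≤ υ) (hυ0 : 0 < υ)
    (hυ1 : υ ≤ 1) (hlam : 0 < lam) (hr : 1 / lam + S / υ ≤ r + 1) (N : ℕ) (hN : N ≠ 0)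
    (hNS : (N : ℝ) ≤ (Y : ℝ) ^ S) (hW : 0 < WW Y ζ υ lam (lam / υ) N)
    (hsq : ∀ q ∈ pr Y ζ υ, ¬ q ^ 2 ∣ N) :
    N.primeFactorsList.length ≤ r ∧ ∀ p : ℕ, p.Prime → p ∣ N → (Y : ℝ) ^ ζ ≤ p := by
  have hYr : (2 : ℝ) ≤ Y := by exact_mod_cast hY
  have hY0 : (0 : ℝ) < Y := by linarith
  have hlY : 0 < Real.log Y := Real.log_pos (by linarith)
  have hWr : (∀ p ∈ PZ Y ζ, ¬ p ∣ N) ∧
      ∑ q ∈ pr Y ζ υ, (lam - lam / υ * tt Y q) * (if q ∣ N then (1 : ℝ) else 0) < 1 := by
    unfold WW at hW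
    split_ifs at hW with h
    · exact ⟨h, by linarith⟩
    · simp at hW
  obtain ⟨h1, h2⟩ := hWr
  have hpw : ∀ w : ℝ, w ≤ 1 → (Y : ℝ) ^ w ≤ Y := by
    intro w hw
    calc (Y : ℝ) ^ w ≤ (Y : ℝ) ^ (1 : ℝ) :=
          Real.rpow_le_rpow_of_exponent_le (by linarith) hw
      _ = Y := Real.rpow_one _
  have hbig : ∀ p : ℕ, p.Prime → p ∣ N → (Y : ℝ) ^ ζ ≤ p := by
    intro p hp hpN
    by_contra hlt
    push Not at hlt
    refine h1 p ?_ hpN
    unfold PZ
    rw [mem_filter, mem_Icc]
    refine ⟨⟨hp.one_le, ?_⟩, hp, (tt_lt Y p ζ hY hp.pos).2 hlt⟩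
    exact_mod_cast (hlt.le.trans (hpw ζ (hζυ.trans hυ1)))
  refine ⟨?_, hbig⟩
  have hN0 : (0 : ℝ) < N := by exact_mod_cast Nat.pos_of_ne_zero hN
  have hmul : ((N.primeFactorsList.length : ℕ) : ℝ) = ∑ p ∈ N.primeFactors, (N.factorization p : ℝ) := by
    have h3 : N.primeFactorsList.length = N.factorization.sum fun _ k => k := by
      rw [← ArithmeticFunction.cardFactors_apply]
      exact ArithmeticFunction.cardFactors_eq_sum_factorization
    rw [h3, Finsupp.sum, Nat.support_factorization]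
    push_cast
    rfl
  have hlog : Real.log N = ∑ p ∈ N.primeFactors, (N.factorization p : ℝ) * Real.log p := by
    rw [Real.log_nat_eq_sum_factorization, Finsupp.sum, Nat.support_factorization]
  have hterm : ∀ p ∈ N.primeFactors, (N.factorization p : ℝ) * (1 - tt Y p / υ) ≤
      if p ∈ pr Y ζ υ then (1 - tt Y p / υ) * (if p ∣ N then 1 else 0) else 0 := by
    intro p hp
    rw [Nat.mem_primeFactors] at hp
    obtain ⟨hpp, hpN, _⟩ := hp
    by_cases h3 : tt Y p < υ
    · have h4 : (p : ℝ) < (Y : ℝ) ^ υ := (tt_lt Y p υ hY hpp.pos).1 h3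
      have h5 : p ∈ pr Y ζ υ := by
        unfold pr
        rw [mem_filter, mem_Icc]
        refine ⟨⟨hpp.one_le, ?_⟩, hpp, ?_, h3⟩
        · exact_mod_cast (h4.le.trans (hpw υ hυ1))
        · by_contra h6
          push Not at h6
          exact absurd (hbig p hpp hpN) (not_le.2 ((tt_lt Y p ζ hY hpp.pos).1 h6))
      rw [if_pos h5, if_pos hpN, mul_one]
      have h6 : N.factorization p ≤ 1 := by
        by_contra h7
        push Not at h7
        exact hsq p h5 ((hpp.pow_dvd_iff_le_factorization hN).2 h7)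
      have h7 : (N.factorization p : ℝ) ≤ 1 := by exact_mod_cast h6
      have h8 : 0 ≤ 1 - tt Y p / υ := by
        rw [sub_nonneg, div_le_one hυ0]
        exact h3.le
      calc (N.factorization p : ℝ) * (1 - tt Y p / υ) ≤ 1 * (1 - tt Y p / υ) :=
            mul_le_mul_of_nonneg_right h7 h8
        _ = _ := one_mul _
    · push Not at h3
      have h4 : p ∉ pr Y ζ υ := by
        intro h5
        unfold pr at h5
        rw [mem_filter] at h5
        linarith [h5.2.2.2]
      rw [if_neg h4]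
      apply mul_nonpos_of_nonneg_of_nonpos (Nat.cast_nonneg _)
      rw [sub_nonpos, one_le_div hυ0]
      exact h3
  have hsum : ∑ p ∈ N.primeFactors, (N.factorization p : ℝ) * (1 - tt Y p / υ) =
      (N.primeFactorsList.length : ℝ) - Real.log N / (υ * Real.log Y) := by
    rw [hmul, hlog, sum_div, ← sum_sub_distrib]
    apply sum_congr rfl
    intro p _
    unfold tt
    field_simp
  have hle : ∑ p ∈ N.primeFactors, (N.factorization p : ℝ) * (1 - tt Y p / υ) ≤
      ∑ q ∈ pr Y ζ υ, (1 - tt Y q / υ) * (if q ∣ N then (1 : ℝ) else 0) := by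
    refine (sum_le_sum hterm).trans ?_
    rw [← sum_filter]
    apply sum_le_sum_of_subset_of_nonneg
    · intro q hq
      exact (mem_filter.1 hq).2
    · intro q hq _
      unfold pr at hq
      rw [mem_filter] at hq
      have h8 : 0 ≤ 1 - tt Y q / υ := by
        rw [sub_nonneg, div_le_one hυ0]
        exact hq.2.2.2.le
      apply mul_nonneg h8
      split_ifs <;> norm_num
  have heq : lam * ∑ q ∈ pr Y ζ υ, (1 - tt Y q / υ) * (if q ∣ N then (1 : ℝ) else 0) =
      ∑ q ∈ pr Y ζ υ, (lam - lam / υ * tt Y q) * (if q ∣ N then (1 : ℝ) else 0) := by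
    rw [mul_sum]
    apply sum_congr rfl
    intro q _
    ring
  have h3 : (N.primeFactorsList.length : ℝ) - Real.log N / (υ * Real.log Y) < 1 / lam := by
    rw [← hsum, lt_div_iff₀ hlam]
    calc (∑ p ∈ N.primeFactors, (N.factorization p : ℝ) * (1 - tt Y p / υ)) * lam ≤
        (∑ q ∈ pr Y ζ υ, (1 - tt Y q / υ) * (if q ∣ N then (1 : ℝ) else 0)) * lam :=
          mul_le_mul_of_nonneg_right hle hlam.le
      _ < 1 := by
          rw [mul_comm, heq]
          exact h2
  have h4 : Real.log N / (υ * Real.log Y) ≤ S / υ := by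
    have h5 := Real.log_le_log hN0 hNS
    rw [Real.log_rpow hY0] at h5
    rw [div_le_div_iff₀ (by positivity) hυ0]
    nlinarith
  have h5 : (N.primeFactorsList.length : ℝ) < r + 1 := by linarith
  have h6 : N.primeFactorsList.length < r + 1 := by exact_mod_cast h5
  omega

end Pool.Agent.Y882.KW
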