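import Pool.Agent.Y882.LSW

/-! The weighted linear sieve on rough numbers, in the form of universal weights. -/

set_option autoImplicit false

open Finset

namespace Pool.Agent.Y882.KW

open Pool.Agent.W23.DC

theorem VV_part (P R : Finset ℕ) (c : Finset ℕ → ℝ) (h : ℕ → ℝ) [DecidablePred (· ⊆ P)] :
    VV (P ∪ R) (fun T => if T ⊆ P then c T else 0) h = VV P c h := by
  classical
  unfold VV
  symm
  calc ∑ T ∈ P.powerset, c T * ∏ p ∈ T, h p =
      ∑ T ∈ P.powerset, (if T ⊆ P then c T else 0) * ∏ p ∈ T, h p := by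
        apply sum_congr rfl
        intro T hT
        rw [if_pos (mem_powerset.1 hT)]
    _ = _ := by
        apply sum_subset (powerset_mono.2 subset_union_left)
        intro T _ hT
        rw [if_neg (fun h => hT (mem_powerset.2 h)), zero_mul]

open Classical in
theorem VV_one (P R : Finset ℕ) (hd : Disjoint P R) (q : ℕ) (hq : q ∈ R) (c : Finset ℕ → ℝ)
    (h : ℕ → ℝ) :
    VV (P ∪ R) (fun T => if q ∈ T ∧ T.erase q ⊆ P then c (T.erase q) else 0) h =
      h q * VV P c h := by
  have hqP : q ∉ P := fun h' => (disjoint_left.1 hd) h' hq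
  unfold VV
  rw [mul_sum]
  have h1 : ∑ T ∈ (P ∪ R).powerset, (if q ∈ T ∧ T.erase q ⊆ P then c (T.erase q) else 0) *
      ∏ p ∈ T, h p = ∑ T ∈ ((P ∪ R).powerset).filter (fun T => q ∈ T ∧ T.erase q ⊆ P),
        c (T.erase q) * ∏ p ∈ T, h p := by
    rw [sum_filter]
    apply sum_congr rfl
    intro T _
    split_ifs <;> simp
  rw [h1]
  symm
  apply sum_nbij' (i := fun U => insert q U) (j := fun T => T.erase q)
  · intro U hU
    rw [mem_powerset] at hU
    rw [mem_filter, mem_powerset]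
    have hqU : q ∉ U := fun h' => hqP (hU h')
    refine ⟨?_, mem_insert_self _ _, ?_⟩
    · intro p hp
      rw [mem_insert] at hp
      rcases hp with rfl | hp
      · exact mem_union_right _ hq
      · exact mem_union_left _ (hU hp)
    · rw [erase_insert hqU]
      exact hU
  · intro T hT
    rw [mem_filter] at hT
    rw [mem_powerset]
    exact hT.2.2
  · intro U hU
    rw [mem_powerset] at hU
    exact erase_insert (fun h' => hqP (hU h'))
  · intro T hT
    rw [mem_filter] at hT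
    exact insert_erase hT.2.1
  · intro U hU
    rw [mem_powerset] at hU
    have hqU : q ∉ U := fun h' => hqP (hU h')
    rw [erase_insert hqU, prod_insert hqU]
    ring

open Classical in
theorem lc_ind_up (P : Finset ℕ) (t : ℕ → ℝ) (hs : Siz P t) (k : ℕ) (τ ζ : ℝ)
    (hτ : 0 ≤ τ) (N : ℕ) :
    (if ∀ p ∈ P, ¬ p ∣ N then 1 else 0) ≤
      VV P (lc P t k true τ ζ) (fun p => if p ∣ N then 1 else 0) := by
  have key : VV P (lc P t k true τ ζ) (fun p => if p ∣ N then 1 else 0) =
      LL P t (fun e => if e ∣ N then 1 else 0) k true τ ζ 1 := by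
    rw [lc_sum P t hs k true τ ζ hτ (fun h => by simp at h)]
    unfold VV
    apply sum_congr rfl
    intro T hT
    rw [prod_ind]
    congr 1
    have h1 : (∀ p ∈ T, p ∣ N) ↔ (∏ p ∈ T, p) ∣ N := by
      constructor
      · intro h
        exact Finset.prod_primes_dvd N
          (fun p hp => (hs.pr p (mem_powerset.1 hT hp)).prime) h
      · intro h p hp
        exact (dvd_prod_of_mem (fun p => p) hp).trans h
    by_cases h2 : ∀ p ∈ T, p ∣ N
    · rw [if_pos h2, if_pos (h1.1 h2)]
    · rw [if_neg h2, if_neg (fun h => h2 (h1.2 h))]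
  have hone : ∀ p ∈ P, t p < ζ → ¬ p ∣ 1 := by
    intro p hp _ h
    have := (hs.pr p hp).one_lt
    have := Nat.le_of_dvd one_pos h
    omega
  have h1 := (Pool.Agent.W52.DC.PT P t hs N k τ ζ 1 hone).1
  rw [key]
  refine le_trans ?_ h1
  by_cases h3 : ∀ p ∈ P, ¬ p ∣ N
  · rw [if_pos h3, if_pos]
    exact ⟨one_dvd N, fun p hp _ => h3 p hp⟩
  · rw [if_neg h3]
    split_ifs <;> norm_num

/-- the sum over the middle primes -/
theorem mid (τ ζ υ a b : ℝ) (hζ : 0 < ζ) (hζυ : ζ ≤ υ) (hυτ : υ < τ) (hτ : τ ≤ 1) (c : ℝ)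
    (hc : 0 < c) (ε₁ : ℝ) (hε : 0 < ε₁) (hεζ : ε₁ ≤ ζ) : ∃ η : ℝ, 0 < η ∧ ∀ (P : Finset ℕ)
      (t g : ℕ → ℝ), (∀ p ∈ P, 0 ≤ g p) → Mer P t g ε₁ υ η →
      ∑ p ∈ P.filter (fun p => ζ ≤ t p ∧ t p < υ), g p * ((a - b * t p) / (τ - t p)) ≤
        (∫ x in ζ..υ, (a - b * x) / (τ - x) / x) + c := by
  classical
  set h : ℝ → ℝ := fun x => (a - b * x) / (τ - x) with hh
  have hcon : ContinuousOn h (Set.Icc ζ υ) := by
    apply ContinuousOn.div
    · fun_prop
    · fun_prop
    · intro x hx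
      have := hx.2
      linarith
  obtain ⟨H, hH⟩ := isCompact_Icc.exists_bound_of_continuousOn hcon
  have hu := isCompact_Icc.uniformContinuousOn_of_continuous hcon
  rw [Metric.uniformContinuousOn_iff_le] at hu
  set κ : ℝ := c / (2 * Real.log (1 / ε₁) + 2) with hκ
  have hlog : 0 ≤ Real.log (1 / ε₁) := by
    apply Real.log_nonneg
    rw [le_div_iff₀ hε]
    linarith
  have hden : 0 < 2 * Real.log (1 / ε₁) + 2 := by linarith
  have hκ0 : 0 < κ := by positivity
  obtain ⟨ρ, hρ, hρ'⟩ := hu κ hκ0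
  obtain ⟨η, hη, HM⟩ := Pool.Agent.W505.DC.MI ε₁ ρ κ (|H| + 1) hε (by linarith) hρ hκ0
    (by positivity)
  refine ⟨η, hη, fun P t g hg hM => ?_⟩
  have h1 := HM P t g υ (by linarith) hg hM ζ υ h hεζ hζυ le_rfl hcon
    (fun x hx => by
      have := hH x hx
      rw [Real.norm_eq_abs] at this
      linarith [le_abs_self H])
    (fun x hx y hy hxy => by
      have := hρ' x hx y hy (by rw [Real.dist_eq]; exact hxy)
      rwa [Real.dist_eq] at this)
  rw [abs_le] at h1
  have h2 : κ * (2 * Real.log (1 / ε₁) + 2) = c := by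
    rw [hκ]; field_simp
  rw [h2] at h1
  have h3 := h1.2
  linarith

end Pool.Agent.Y882.KW
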