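import Mathlib

/-! The integrals of the weighted sieve. -/

set_option autoImplicit false

namespace Pool.Agent.Y882.KW

open Real

theorem int_eval (aw bw τ ζ υ : ℝ) (hζ : 0 < ζ) (hζυ : ζ ≤ υ) (hυτ : υ < τ) :
    ∫ x in ζ..υ, (aw - bw * x) / (τ - x) / x =
      aw / τ * log (υ / ζ) + (aw / τ - bw) * log ((τ - ζ) / (τ - υ)) := by
  have hτ : 0 < τ := by linarith
  have hd : ∀ x ∈ Set.uIcc ζ υ, HasDerivAt
      (fun x => aw / τ * log x - (aw / τ - bw) * log (τ - x)) ((aw - bw * x) / (τ - x) / x) x := by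
    intro x hx
    rw [Set.uIcc_of_le hζυ] at hx
    have hx0 : x ≠ 0 := by linarith [hx.1]
    have hx1 : τ - x ≠ 0 := by linarith [hx.2]
    have h1 : HasDerivAt (fun x : ℝ => log (τ - x)) (-1 / (τ - x)) x := by
      have := ((hasDerivAt_id x).const_sub τ).log hx1
      simpa using this
    have h2 := ((hasDerivAt_log hx0).const_mul (aw / τ)).sub (h1.const_mul (aw / τ - bw))
    refine h2.congr_deriv ?_
    field_simp
    ring
  rw [intervalIntegral.integral_eq_sub_of_hasDerivAt hd]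
  · rw [log_div (by linarith) (by linarith), log_div (by linarith) (by linarith)]
    ring
  · apply ContinuousOn.intervalIntegrable
    rw [Set.uIcc_of_le hζυ]
    apply ContinuousOn.div
    · apply ContinuousOn.div
      · fun_prop
      · fun_prop
      · intro x hx
        linarith [hx.2]
    · fun_prop
    · intro x hx
      linarith [hx.1]

/-- the condition, in terms of logarithms -/
theorem cond_log (lam τ ζ υ : ℝ) (hlam : 0 < lam) (hζ : 0 < ζ) (hζυ : ζ ≤ υ) (hυτ : υ < τ)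
    (h : log (υ / ζ) - (τ / υ - 1) * log ((τ - ζ) / (τ - υ)) < 1 / lam * log (τ / ζ - 1)) :
    ∫ x in ζ..υ, (lam - lam / υ * x) / (τ - x) / x < log (τ / ζ - 1) / τ := by
  have hτ : 0 < τ := by linarith
  have hυ : 0 < υ := by linarith
  rw [int_eval lam (lam / υ) τ ζ υ hζ hζυ hυτ]
  have h1 : lam / τ * log (υ / ζ) + (lam / τ - lam / υ) * log ((τ - ζ) / (τ - υ)) =
      lam / τ * (log (υ / ζ) - (τ / υ - 1) * log ((τ - ζ) / (τ - υ))) := by
    field_simp
    ring
  rw [h1]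
  calc lam / τ * (log (υ / ζ) - (τ / υ - 1) * log ((τ - ζ) / (τ - υ))) <
      lam / τ * (1 / lam * log (τ / ζ - 1)) := mul_lt_mul_of_pos_left h (by positivity)
    _ = _ := by field_simp

theorem log3 : 1.0986 < log 3 ∧ log 3 < 1.0987 := by
  have h2 := Real.log_two_gt_d9
  have h2' := Real.log_two_lt_d9
  have h3 : (12 : ℝ) * log 3 = log (531441 / 524288) + 19 * log 2 := by
    rw [log_div (by norm_num) (by norm_num)]
    have e1 : log (531441 : ℝ) = 12 * log 3 := by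
      rw [show (531441 : ℝ) = 3 ^ 12 by norm_num, log_pow]
      norm_num
    have e2 : log (524288 : ℝ) = 19 * log 2 := by
      rw [show (524288 : ℝ) = 2 ^ 19 by norm_num, log_pow]
      norm_num
    rw [e1, e2]
    ring
  have h4 : log (531441 / 524288 : ℝ) ≤ 531441 / 524288 - 1 :=
    log_le_sub_one_of_pos (by norm_num)
  have h5 : 1 - (531441 / 524288 : ℝ)⁻¹ ≤ log (531441 / 524288 : ℝ) :=
    one_sub_inv_le_log_of_pos (by norm_num)
  norm_num at h4 h5
  constructor <;> linarith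

theorem log5 : 1.6094 < log 5 ∧ log 5 < 1.6095 := by
  have h2 := Real.log_two_gt_d9
  have h2' := Real.log_two_lt_d9
  -- 5 ^ 28 and 2 ^ 65
  have h3 : (28 : ℝ) * log 5 = log ((5 : ℝ) ^ 28 / 2 ^ 65) + 65 * log 2 := by
    rw [log_div (by norm_num) (by norm_num), log_pow, log_pow]
    push_cast
    ring
  have h4 : log ((5 : ℝ) ^ 28 / 2 ^ 65) ≤ (5 : ℝ) ^ 28 / 2 ^ 65 - 1 :=
    log_le_sub_one_of_pos (by norm_num)
  have h5 : 1 - ((5 : ℝ) ^ 28 / 2 ^ 65)⁻¹ ≤ log ((5 : ℝ) ^ 28 / 2 ^ 65) :=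
    one_sub_inv_le_log_of_pos (by norm_num)
  norm_num at h4 h5
  constructor <;> linarith

/-- `x = 24/25`, `z = 1/4` -/
theorem cond_A (τ lam : ℝ) (hτ : 0 < τ) (hlam : 0 < lam) (h : 9 / 8 ≤ 1 / lam) :
    ∫ x in (τ / 4)..(24 / 25 * τ), (lam - lam / (24 / 25 * τ) * x) / (τ - x) / x <
      log (τ / (τ / 4) - 1) / τ := by
  apply cond_log lam τ (τ / 4) (24 / 25 * τ) hlam (by linarith) (by linarith) (by linarith)
  have e1 : 24 / 25 * τ / (τ / 4) = 96 / 25 := by field_simp; norm_num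
  have e2 : τ / (24 / 25 * τ) - 1 = 1 / 24 := by field_simp; norm_num
  have e3 : (τ - τ / 4) / (τ - 24 / 25 * τ) = 75 / 4 := by field_simp; norm_num
  have e4 : τ / (τ / 4) - 1 = 3 := by field_simp; norm_num
  rw [e1, e2, e3, e4]
  have h2 := Real.log_two_gt_d9
  have h2' := Real.log_two_lt_d9
  obtain ⟨h3, h3'⟩ := log3
  obtain ⟨h5, h5'⟩ := log5
  have f1 : log (96 / 25 : ℝ) = 5 * log 2 + log 3 - 2 * log 5 := by
    rw [log_div (by norm_num) (by norm_num), show (96 : ℝ) = 2 ^ 5 * 3 by norm_num,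
      show (25 : ℝ) = 5 ^ 2 by norm_num, log_mul (by norm_num) (by norm_num), log_pow, log_pow]
    norm_num
  have f2 : log (75 / 4 : ℝ) = log 3 + 2 * log 5 - 2 * log 2 := by
    rw [log_div (by norm_num) (by norm_num), show (75 : ℝ) = 3 * 5 ^ 2 by norm_num,
      show (4 : ℝ) = 2 ^ 2 by norm_num, log_mul (by norm_num) (by norm_num), log_pow, log_pow]
    norm_num
  rw [f1, f2]
  have h6 : 9 / 8 * log 3 ≤ 1 / lam * log 3 := mul_le_mul_of_nonneg_right h (by linarith)
  refine lt_of_lt_of_le ?_ h6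
  linarith

/-- `x = 9/10`, `z = 2/5` -/
theorem cond_B (τ lam : ℝ) (hτ : 0 < τ) (hlam : 0 < lam) (h : 31 / 20 ≤ 1 / lam) :
    ∫ x in (2 / 5 * τ)..(9 / 10 * τ), (lam - lam / (9 / 10 * τ) * x) / (τ - x) / x <
      log (τ / (2 / 5 * τ) - 1) / τ := by
  apply cond_log lam τ (2 / 5 * τ) (9 / 10 * τ) hlam (by linarith) (by linarith) (by linarith)
  have e1 : 9 / 10 * τ / (2 / 5 * τ) = 9 / 4 := by field_simp; norm_num
  have e2 : τ / (9 / 10 * τ) - 1 = 1 / 9 := by field_simp; norm_num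
  have e3 : (τ - 2 / 5 * τ) / (τ - 9 / 10 * τ) = 6 := by field_simp; norm_num
  have e4 : τ / (2 / 5 * τ) - 1 = 3 / 2 := by field_simp; norm_num
  rw [e1, e2, e3, e4]
  have h2 := Real.log_two_gt_d9
  have h2' := Real.log_two_lt_d9
  obtain ⟨h3, h3'⟩ := log3
  have f1 : log (9 / 4 : ℝ) = 2 * log 3 - 2 * log 2 := by
    rw [log_div (by norm_num) (by norm_num), show (9 : ℝ) = 3 ^ 2 by norm_num,
      show (4 : ℝ) = 2 ^ 2 by norm_num, log_pow, log_pow]
    norm_num
  have f2 : log (6 : ℝ) = log 3 + log 2 := by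
    rw [show (6 : ℝ) = 3 * 2 by norm_num, log_mul (by norm_num) (by norm_num)]
  have f3 : log (3 / 2 : ℝ) = log 3 - log 2 := log_div (by norm_num) (by norm_num)
  rw [f1, f2, f3]
  have h6 : 31 / 20 * (log 3 - log 2) ≤ 1 / lam * (log 3 - log 2) :=
    mul_le_mul_of_nonneg_right h (by linarith)
  refine lt_of_lt_of_le ?_ h6
  linarith

end Pool.Agent.Y882.KW
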